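import Mathlib

namespace Pool.Agent.H.MP_ca288e_gt

open Set Filter Topology Cardinal

noncomputable section

abbrev W : Type := (Order.succ (𝔠 : Cardinal.{0})).ord.ToType

theorem mk_Iio_le (δ : W) : Cardinal.mk (Iio δ) ≤ 𝔠 :=
  Order.lt_succ_iff.1 (mk_Iio_toType_ord_lt δ)

theorem mk_Iic_le (δ : W) : Cardinal.mk (Iic δ) ≤ 𝔠 := by
  rw [← Iio_insert]
  refine mk_insert_le.trans ?_
  calc Cardinal.mk (Iio δ) + 1 ≤ 𝔠 + 𝔠 :=
        add_le_add (mk_Iio_le δ) (one_le_aleph0.trans aleph0_le_continuum)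
    _ = 𝔠 := continuum_add_self

theorem lt_mk_W : 𝔠 < Cardinal.mk W := by
  rw [mk_ord_toType]; exact Order.lt_succ _

theorem small_biUnion {ι α : Type} {s : Set ι} {f : ι → Set α} (hs : Cardinal.mk s ≤ 𝔠)
    (hf : ∀ i ∈ s, Cardinal.mk (f i) ≤ 𝔠) : Cardinal.mk (⋃ i ∈ s, f i : Set α) ≤ 𝔠 := by
  rw [biUnion_eq_iUnion]
  refine (mk_iUnion_le_sum_mk).trans ?_
  refine (sum_le_sum _ (fun _ => 𝔠) fun i : s => hf i.1 i.2).trans ?_
  rw [sum_const']
  calc Cardinal.mk s * 𝔠 ≤ 𝔠 * 𝔠 := by gcongr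
    _ = 𝔠 := continuum_mul_self

theorem small_union {α : Type} {s t : Set α} (hs : Cardinal.mk s ≤ 𝔠)
    (ht : Cardinal.mk t ≤ 𝔠) : Cardinal.mk (s ∪ t : Set α) ≤ 𝔠 :=
  (mk_union_le s t).trans ((add_le_add hs ht).trans continuum_add_self.le)

theorem small_countable {α : Type} {s : Set α} (hs : s.Countable) : Cardinal.mk s ≤ 𝔠 :=
  (le_aleph0_iff_set_countable.2 hs).trans aleph0_le_continuum

theorem exists_not_mem {α : Type} {s t : Set α} (hs : 𝔠 < Cardinal.mk s)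
    (ht : Cardinal.mk t ≤ 𝔠) : ∃ a ∈ s, a ∉ t := by
  by_contra h
  push Not at h
  exact absurd ((mk_le_mk_of_subset h).trans ht) (not_le.2 hs)

theorem exists_bound {s : Set W} (hs : Cardinal.mk s ≤ 𝔠) : ∃ δ, ∀ g ∈ s, g < δ := by
  have h1 := small_biUnion (f := fun g : W => Iic g) hs fun g _ => mk_Iic_le g
  obtain ⟨δ, -, hδ⟩ := exists_not_mem (s := (univ : Set W)) (by rw [mk_univ]; exact lt_mk_W) h1
  refine ⟨δ, fun g hg => not_le.1 fun h => hδ ?_⟩
  exact mem_biUnion hg h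

theorem pigeon {ι α : Type} [Countable α] {s : Set ι} (hs : 𝔠 < Cardinal.mk s) (f : ι → α) :
    ∃ a, 𝔠 < Cardinal.mk ({i ∈ s | f i = a} : Set ι) := by
  by_contra h
  push Not at h
  have h1 := small_biUnion (s := (univ : Set α)) (f := fun a => {i ∈ s | f i = a})
    (small_countable countable_univ) fun a _ => h a
  obtain ⟨i, hi, hi'⟩ := exists_not_mem hs h1
  exact hi' (mem_biUnion (mem_univ (f i)) ⟨hi, rfl⟩)

def Thin (S : Set W) (θ : Ordinal.{0}) : Prop :=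
  ∃ f : W → Ordinal.{0}, Monotone f ∧ (∀ x ∈ S, ∀ y, x < y → f x < f y) ∧ ∀ x, f x ≤ θ

theorem Thin.mono {S T : Set W} {θ : Ordinal.{0}} (h : Thin T θ) (hST : S ⊆ T) : Thin S θ := by
  obtain ⟨f, h1, h2, h3⟩ := h
  exact ⟨f, h1, fun x hx => h2 x (hST hx), h3⟩

theorem thin_empty (θ : Ordinal.{0}) : Thin ∅ θ :=
  ⟨fun _ => 0, monotone_const, fun _ h => h.elim, fun _ => zero_le⟩

theorem lex_lt {θ a a' b b' : Ordinal.{0}} (h : a < a') (hb : b ≤ θ) :
    (θ + 1) * a + b < (θ + 1) * a' + b' := by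
  calc (θ + 1) * a + b < (θ + 1) * a + (θ + 1) := by
        apply add_lt_add_right; exact hb.trans_lt (lt_add_one θ)
    _ = (θ + 1) * (a + 1) := by rw [mul_add, mul_one]
    _ ≤ (θ + 1) * a' := by
        gcongr; exact Order.add_one_le_iff.2 h
    _ ≤ _ := le_self_add

theorem lex_le {θ a a' b b' : Ordinal.{0}} (h : a ≤ a') (hb : b ≤ b') :
    (θ + 1) * a + b ≤ (θ + 1) * a' + b' := by
  gcongr

theorem Thin.union {S T : Set W} {θ η : Ordinal.{0}} (hS : Thin S θ) (hT : Thin T η) :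
    Thin (S ∪ T) ((η + 1) * θ + η) := by
  obtain ⟨f, f1, f2, f3⟩ := hS
  obtain ⟨g, g1, g2, g3⟩ := hT
  refine ⟨fun x => (η + 1) * f x + g x, fun x y h => lex_le (f1 h) (g1 h), ?_,
    fun x => lex_le (f3 x) (g3 x)⟩
  rintro x (hx | hx) y hxy
  · exact lex_lt (f2 x hx y hxy) (g3 x)
  · calc (η + 1) * f x + g x < (η + 1) * f x + g y := add_lt_add_right (g2 x hx y hxy) _
      _ ≤ _ := lex_le (f1 hxy.le) le_rfl

def th : ℕ → Ordinal.{0}
  | 0 => 0
  | n + 1 => (th n + 1) * (𝔠 : Cardinal.{0}).ord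

theorem card_th (n : ℕ) : (th n).card ≤ 𝔠 := by
  induction n with
  | zero => simp [th]
  | succ n ih =>
    simp only [th, Ordinal.card_mul, Ordinal.card_add, Ordinal.card_one, card_ord]
    calc ((th n).card + 1) * 𝔠 ≤ (𝔠 + 𝔠) * 𝔠 := by
          gcongr; exact one_le_aleph0.trans aleph0_le_continuum
      _ = 𝔠 := by rw [continuum_add_self, continuum_mul_self]

theorem exists_j (β : W) : ∃ j : W → Ordinal.{0}, InjOn j (Iio β) ∧
    ∀ x, x < β → j x < (𝔠 : Cardinal.{0}).ord := by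
  classical
  have h : Cardinal.mk (Iio β) ≤ Cardinal.mk (𝔠 : Cardinal.{0}).ord.ToType := by
    rw [mk_ord_toType]; exact mk_Iio_le β
  obtain ⟨e⟩ := h
  refine ⟨fun x => if h : x < β then Ordinal.typein (α := (𝔠 : Cardinal.{0}).ord.ToType) (· < ·)
    (e ⟨x, h⟩) else 0, ?_, ?_⟩
  · intro x hx y hy hxy
    simp only [mem_Iio.1 hx, mem_Iio.1 hy, dite_true] at hxy
    have := e.injective (Ordinal.typein_injective _ hxy)
    exact congrArg Subtype.val this
  · intro x hx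
    simp only [hx, dite_true]
    exact Ordinal.typein_lt_self _

theorem milner_rado (β : W) :
    ∃ e : W → ℕ, ∀ n, Thin {α | α < β ∧ e α ≤ n} (th n) := by
  classical
  induction β using WellFoundedLT.induction with
  | ind β ih =>
    choose! e he using ih
    choose! f f1 f2 f3 using he
    obtain ⟨j, hj, hjc⟩ := exists_j β
    have hγ : ∀ x, x < β → ∃ γ, x ≤ γ ∧ γ < β ∧ ∀ γ', x ≤ γ' → γ' < β → j γ ≤ j γ' := by
      intro x hx
      have hne : ({γ | x ≤ γ ∧ γ < β} : Set W).Nonempty := ⟨x, le_rfl, hx⟩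
      have hm := Function.argminOn_mem j _ hne
      exact ⟨_, hm.1, hm.2, fun γ' h1 h2 => Function.argminOn_le j
        {γ | x ≤ γ ∧ γ < β} (a := γ') ⟨h1, h2⟩⟩
    haveI : Nonempty W := ⟨β⟩
    choose! γ γ1 γ2 γ3 using hγ
    refine ⟨fun α => e (γ α) α + 1, fun n => ?_⟩
    cases n with
    | zero => exact (thin_empty _).mono fun α hα => absurd hα.2 (by simp)
    | succ n =>
      have top : ∀ x, x < β → (th n + 1) * j (γ x) + f (γ x) n x < th (n + 1) := by
        intro x hx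
        have := lex_lt (b' := 0) (hjc _ (γ2 x hx)) (f3 (γ x) (γ2 x hx) n x)
        simpa [th] using this
      have key : ∀ x y, x ≤ y → y < β → j (γ x) < j (γ y) ∨ γ x = γ y := by
        intro x y hxy hy
        have hx := hxy.trans_lt hy
        rcases (γ3 x hx (γ y) (hxy.trans (γ1 y hy)) (γ2 y hy)).lt_or_eq with h | h
        · exact Or.inl h
        · exact Or.inr (hj (γ2 x hx) (γ2 y hy) h)
      refine ⟨fun x => if x < β then (th n + 1) * j (γ x) + f (γ x) n x else th (n + 1),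
        ?_, ?_, ?_⟩
      · intro x y hxy
        by_cases hy : y < β
        · have hx := hxy.trans_lt hy
          simp only [hx, hy, if_true]
          rcases key x y hxy hy with h | h
          · exact (lex_lt h (f3 _ (γ2 x hx) n x)).le
          · rw [h]; exact lex_le le_rfl (f1 _ (γ2 y hy) n hxy)
        · by_cases hx : x < β
          · simp only [hx, hy, if_true, if_false]; exact (top x hx).le
          · simp only [hx, hy, if_false]; exact le_rfl
      · rintro x ⟨hx, hxe⟩ y hxy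
        by_cases hy : y < β
        · simp only [hx, hy, if_true]
          rcases key x y hxy.le hy with h | h
          · exact lex_lt h (f3 _ (γ2 x hx) n x)
          · have hlt : x < γ x := h ▸ hxy.trans_le (γ1 y hy)
            rw [← h]
            exact add_lt_add_right (f2 _ (γ2 x hx) n x ⟨hlt, by simpa using hxe⟩ y hxy) _
        · simp only [hx, hy, if_true, if_false]; exact top x hx
      · intro x
        by_cases hx : x < β
        · simp only [hx, if_true]; exact (top x hx).le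
        · simp only [hx, if_false]; exact le_rfl

def rho (α β : W) : ℕ := (milner_rado β).choose α

theorem thin_rho (β : W) (n : ℕ) : Thin {α | α < β ∧ rho α β ≤ n} (th n) :=
  (milner_rado β).choose_spec n

theorem thin_fin (n m : ℕ) : ∃ θ : Ordinal.{0}, θ.card ≤ 𝔠 ∧ ∀ b : Finset W, b.card = m →
    Thin {α | ∃ β ∈ b, α < β ∧ rho α β ≤ n} θ := by
  classical
  induction m with
  | zero =>
    refine ⟨0, by simp, fun b hb => (thin_empty _).mono ?_⟩
    rintro α ⟨β, hβ, -⟩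
    simp [Finset.card_eq_zero.1 hb] at hβ
  | succ m ih =>
    obtain ⟨θ, hθ, h⟩ := ih
    refine ⟨(θ + 1) * th n + θ, ?_, fun b hb => ?_⟩
    · simp only [Ordinal.card_mul, Ordinal.card_add, Ordinal.card_one]
      calc (θ.card + 1) * (th n).card + θ.card ≤ (𝔠 + 𝔠) * 𝔠 + 𝔠 := by
            gcongr
            · exact one_le_aleph0.trans aleph0_le_continuum
            · exact card_th n
        _ = 𝔠 := by rw [continuum_add_self, continuum_mul_self, continuum_add_self]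
    · obtain ⟨β, b', hβ, rfl, hb'⟩ := Finset.card_eq_succ.1 hb
      refine ((thin_rho β n).union (h b' hb')).mono ?_
      rintro α ⟨β', hβ', h1⟩
      rcases Finset.mem_insert.1 hβ' with rfl | h2
      · exact Or.inl h1
      · exact Or.inr ⟨β', h2, h1⟩

theorem claim {ι : Type} (s : Set ι) (D : ι → Finset W)
    (hD : ∀ δ : W, ∃ u ∈ s, ∀ g ∈ D u, δ < g) (o : Ordinal.{0}) (ho : o.card ≤ 𝔠) :
    ∃ T ⊆ s, Cardinal.mk T ≤ 𝔠 ∧ ∀ (S : Set W) (f : W → Ordinal.{0}),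
      (∀ x ∈ S, ∀ y, x < y → f x < f y) → (∀ u ∈ T, ∃ g ∈ D u, g ∈ S) →
      ∃ u ∈ T, ∃ g ∈ D u, g ∈ S ∧ o ≤ f g := by
  induction o using WellFoundedLT.induction with
  | ind o ih =>
    have ih' : ∀ a : o.ToType, ∃ T ⊆ s, Cardinal.mk T ≤ 𝔠 ∧ ∀ (S : Set W) (f : W → Ordinal.{0}),
        (∀ x ∈ S, ∀ y, x < y → f x < f y) → (∀ u ∈ T, ∃ g ∈ D u, g ∈ S) →
        ∃ u ∈ T, ∃ g ∈ D u, g ∈ S ∧ Ordinal.typein (α := o.ToType) (· < ·) a ≤ f g := fun a =>
      ih _ (Ordinal.typein_lt_self a) ((Ordinal.card_le_card (Ordinal.typein_lt_self a).le).trans ho)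
    choose T T1 T2 T3 using ih'
    have hT0 : Cardinal.mk (⋃ a ∈ (univ : Set o.ToType), T a : Set ι) ≤ 𝔠 :=
      small_biUnion (by rw [mk_univ, mk_toType]; exact ho) fun a _ => T2 a
    obtain ⟨δ, hδ⟩ := exists_bound (small_biUnion (f := fun u => (D u : Set W)) hT0
      fun u _ => small_countable (D u).countable_toSet)
    obtain ⟨u, hu, hu'⟩ := hD δ
    refine ⟨(⋃ a ∈ (univ : Set o.ToType), T a) ∪ {u}, ?_,
      small_union hT0 (small_countable (countable_singleton u)), fun S f hf hS => ?_⟩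
    · refine union_subset (iUnion₂_subset fun a _ => T1 a) (singleton_subset_iff.2 hu)
    · obtain ⟨g, hg, hgS⟩ := hS u (Or.inr rfl)
      refine ⟨u, Or.inr rfl, g, hg, hgS, not_lt.1 fun hlt => ?_⟩
      obtain ⟨a, ha⟩ := Ordinal.typein_surj (α := o.ToType) (· < ·) (o := f g)
        (by rwa [Ordinal.type_toType])
      obtain ⟨u', hu1, g', hg1, hg2, hg3⟩ := T3 a S f hf fun v hv =>
        hS v (Or.inl (mem_biUnion (mem_univ a) hv))
      have h1 : g' < δ := hδ g' (mem_biUnion (mem_biUnion (mem_univ a) hu1) hg1)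
      have h2 := hf g' hg2 g (h1.trans (hu' g hg))
      rw [ha] at hg3
      exact absurd hg3 (not_le.2 h2)

theorem two_blocks {ι : Type} (s : Set ι) (D : ι → Finset W) (n m : ℕ)
    (hm : ∀ u ∈ s, (D u).card = m) (hs : 𝔠 < Cardinal.mk s)
    (hD : ∀ δ : W, Cardinal.mk ({u ∈ s | ∃ g ∈ D u, g ≤ δ} : Set ι) ≤ 𝔠) :
    ∃ u ∈ s, ∃ v ∈ s, u ≠ v ∧ ∀ g ∈ D u, ∀ g' ∈ D v, g < g' ∧ n < rho g g' := by
  obtain ⟨θ, hθ, hth⟩ := thin_fin n m
  have hD' : ∀ δ : W, ∃ u ∈ s, ∀ g ∈ D u, δ < g := by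
    intro δ
    obtain ⟨u, hu, hu'⟩ := exists_not_mem hs (hD δ)
    exact ⟨u, hu, fun g hg => not_le.1 fun h => hu' ⟨hu, g, hg, h⟩⟩
  obtain ⟨T, T1, T2, T3⟩ := claim s D hD' (θ + 1) (by
    rw [Ordinal.card_add, Ordinal.card_one]
    exact (add_le_add hθ (one_le_aleph0.trans aleph0_le_continuum)).trans continuum_add_self.le)
  obtain ⟨δ, hδ⟩ := exists_bound (small_biUnion (f := fun u => (D u : Set W)) T2
      fun u _ => small_countable (D u).countable_toSet)
  obtain ⟨v, hv, hv'⟩ := exists_not_mem hs (small_union T2 (hD δ))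
  obtain ⟨f, -, f2, f3⟩ := hth (D v) (hm v hv)
  have : ¬ ∀ u ∈ T, ∃ g ∈ D u, g ∈ {α | ∃ β ∈ D v, α < β ∧ rho α β ≤ n} := by
    intro h
    obtain ⟨u, -, g, -, -, hg⟩ := T3 _ f f2 h
    exact absurd (hg.trans (f3 g)) (not_le.2 (lt_add_one θ))
  push Not at this
  obtain ⟨u, hu, hu'⟩ := this
  refine ⟨u, T1 hu, v, hv, fun h => hv' (Or.inl (h ▸ hu)), fun g hg g' hg' => ?_⟩
  have h1 : g < g' := (hδ g (mem_biUnion hu hg)).trans
    (not_le.1 fun h => hv' (Or.inr ⟨hv, g', hg', h⟩))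
  exact ⟨h1, not_le.1 fun h => hu' g hg ⟨g', hg', h1, h⟩⟩

theorem delta {ι A : Type} [Countable A] (s : Set ι) (hs : 𝔠 < Cardinal.mk s)
    (Γ : ι → Finset W) (w : ι → W → A) (N : ι → ℕ) :
    ∃ u ∈ s, ∃ v ∈ s, u ≠ v ∧ (∀ g ∈ Γ u, g ∈ Γ v → w u g = w v g) ∧
      ∀ g ∈ Γ u, g ∉ Γ v → ∀ g' ∈ Γ v, g' ∉ Γ u → g < g' ∧ N u < rho g g' := by
  classical
  obtain ⟨⟨m, n⟩, h1⟩ := pigeon hs fun u => ((Γ u).card, N u)
  set s1 := {u ∈ s | ((Γ u).card, N u) = (m, n)} with hs1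
  let Q : ℕ → Prop := fun k => ∃ r : Finset W, r.card = k ∧
    𝔠 < Cardinal.mk ({u ∈ s1 | r ⊆ Γ u} : Set ι)
  have Q0 : Q 0 := ⟨∅, rfl, by simpa using h1⟩
  have Qb : ∀ k, Q k → k ≤ m := by
    rintro k ⟨r, rfl, hr⟩
    obtain ⟨u, hu, -⟩ := exists_not_mem hr (small_countable countable_empty)
    have := Finset.card_le_card hu.2
    have h2 := congrArg Prod.fst hu.1.2
    simp only at h2
    omega
  obtain ⟨r, hrk, hr⟩ : Q (Nat.findGreatest Q m) := Nat.findGreatest_spec (Nat.zero_le m) Q0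
  have hmax : ∀ g ∉ r, Cardinal.mk ({u ∈ s1 | insert g r ⊆ Γ u} : Set ι) ≤ 𝔠 := by
    intro g hg
    by_contra hc
    have hq : Q (r.card + 1) := ⟨insert g r, Finset.card_insert_of_notMem hg, not_le.1 hc⟩
    have := Nat.le_findGreatest (Qb _ hq) hq
    omega
  obtain ⟨a, h2⟩ := pigeon hr fun u => fun g : r => w u g
  set s2 := {u ∈ {u ∈ s1 | r ⊆ Γ u} | (fun g : r => w u g) = a} with hs2
  obtain ⟨u, hu, v, hv, huv, h⟩ := two_blocks s2 (fun u => Γ u \ r) n (m - r.card) (by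
      intro u hu
      rw [Finset.card_sdiff_of_subset hu.1.2]
      have h2 := congrArg Prod.fst hu.1.1.2
      simp only at h2
      rw [h2]) h2 (by
      intro δ
      refine le_trans (mk_le_mk_of_subset ?_)
        (small_biUnion (s := Iic δ \ r) (f := fun g => {u ∈ s1 | insert g r ⊆ Γ u})
          ((mk_le_mk_of_subset sdiff_subset).trans (mk_Iic_le δ)) fun g hg => hmax g hg.2)
      rintro u ⟨hu, g, hg, hgδ⟩
      rw [Finset.mem_sdiff] at hg
      exact mem_biUnion (x := g) ⟨hgδ, hg.2⟩ ⟨hu.1.1, Finset.insert_subset hg.1 hu.1.2⟩)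
  refine ⟨u, hu.1.1.1, v, hv.1.1.1, huv, fun g hg hg' => ?_, fun g hg hg1 g' hg' hg2 => ?_⟩
  · by_cases hgr : g ∈ r
    · exact (congrFun hu.2 ⟨g, hgr⟩).trans (congrFun hv.2 ⟨g, hgr⟩).symm
    · exact absurd (h g (Finset.mem_sdiff.2 ⟨hg, hgr⟩) g (Finset.mem_sdiff.2 ⟨hg', hgr⟩)).1
        (lt_irrefl g)
  · have h3 := congrArg Prod.snd hu.1.1.2
    simp only at h3
    rw [h3]
    exact h g (Finset.mem_sdiff.2 ⟨hg, fun h => hg1 (hv.1.2 h)⟩) g'
      (Finset.mem_sdiff.2 ⟨hg', fun h => hg2 (hu.1.2 h)⟩)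

end

end Pool.Agent.H.MP_ca288e_gt
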