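import Mathlib

namespace Pool.Agent.H.MP_ca288e_gt

open Set Filter Topology Cardinal

noncomputable section

abbrev C : Type := ℕ → Bool

abbrev X1 : Type := ℕ → C

def Big (J : Finset ℕ) (P : Set X1) : Prop :=
  ∀ S : Set C, S.Countable → ∃ u ∈ P, ∀ i ∈ J, u i ∉ S

def cyl (u : X1) (n : ℕ) : Set X1 := {v | ∀ i < n, ∀ k < n, v i k = u i k}

def Ker (J : Finset ℕ) (P : Set X1) : Set X1 := {u ∈ P | ∀ n, Big J (P ∩ cyl u n)}

theorem big_ker {J : Finset ℕ} {P Q : Set X1} (hQ : Big J (P ∩ Q)) :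
    Big J (Ker J P ∩ Q) := by
  classical
  let key : ℕ × Finset (ℕ × ℕ) → Set X1 := fun p =>
    {v | ∀ i < p.1, ∀ k < p.1, v i k = decide ((i, k) ∈ p.2)}
  have h1 : ∀ p, ¬ Big J (P ∩ key p) → ∃ S : Set C, S.Countable ∧
      ∀ u ∈ P ∩ key p, ∃ i ∈ J, u i ∈ S := by
    intro p hp
    unfold Big at hp
    push Not at hp
    exact hp
  choose! S hS1 hS2 using h1
  intro S0 hS0
  obtain ⟨u, hu, hu'⟩ := hQ (S0 ∪ ⋃ p ∈ {p | ¬ Big J (P ∩ key p)}, S p)
    (hS0.union (Countable.biUnion (to_countable _) fun p hp => hS1 p hp))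
  refine ⟨u, ⟨⟨hu.1, fun n => ?_⟩, hu.2⟩, fun i hi h => hu' i hi (Or.inl h)⟩
  by_contra hn
  let p : ℕ × Finset (ℕ × ℕ) :=
    (n, (Finset.range n ×ˢ Finset.range n).filter fun q => u q.1 q.2 = true)
  have hk : key p = cyl u n := by
    ext v
    simp only [key, cyl, p, mem_ofPred_eq]
    refine forall₂_congr fun i hi => forall₂_congr fun k hk => ?_
    have : decide ((i, k) ∈ (Finset.range n ×ˢ Finset.range n).filter
        fun q => u q.1 q.2 = true) = u i k := by
      cases h : u i k <;> simp [h, hi, hk]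
    rw [this]
  have hp : ¬ Big J (P ∩ key p) := by rwa [hk]
  obtain ⟨i, hi, hiS⟩ := hS2 p hp u ⟨hu.1, by rw [hk]; exact fun _ _ _ _ => rfl⟩
  exact hu' i hi (Or.inr (mem_biUnion hp hiS))

theorem split {J : Finset ℕ} {P : Set X1} (u : Ker J P) (n : ℕ) :
    ∃ (v : Ker J P) (m : ℕ), n < m ∧ v.1 ∈ cyl u n ∧
      ∀ i ∈ J, i < m ∧ ∃ k < m, v.1 i k ≠ u.1 i k := by
  obtain ⟨v, hv, hv'⟩ := big_ker (u.2.2 n) (range u.1) (countable_range _)
  have h : ∀ i ∈ J, ∃ k, v i k ≠ u.1 i k := fun i hi =>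
    Function.ne_iff.1 fun h => hv' i hi ⟨i, h.symm⟩
  choose! k hk using h
  refine ⟨⟨v, hv.1⟩, n + 1 + J.sup (fun i => i + k i + 1), by omega, hv.2, fun i hi => ?_⟩
  have : i + k i + 1 ≤ J.sup (fun i => i + k i + 1) :=
    Finset.le_sup (f := fun i => i + k i + 1) hi
  exact ⟨by omega, k i, by omega, hk i hi⟩

theorem exists_many {J : Finset ℕ} {P : Set X1} (hP : IsClosed P) (hB : Big J P) :
    ∃ φ : C → X1, (∀ σ, φ σ ∈ P) ∧ ∀ σ τ, σ ≠ τ → ∀ i ∈ J, φ σ i ≠ φ τ i := by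
  classical
  obtain ⟨u0, hu0, -⟩ := big_ker (J := J) (P := P) (Q := univ) (by simpa using hB) ∅
    countable_empty
  choose v m hm hv hvu using split (J := J) (P := P)
  let st : C → ℕ → Ker J P × ℕ := fun σ n => Nat.rec (⟨u0, hu0.1⟩, 0)
    (fun n p => (if σ n then v p.1 p.2 else p.1, m p.1 p.2)) n
  have st1 : ∀ σ n, (st σ (n + 1)).1 = if σ n then v (st σ n).1 (st σ n).2 else (st σ n).1 :=
    fun _ _ => rfl
  have st2 : ∀ σ n, (st σ (n + 1)).2 = m (st σ n).1 (st σ n).2 := fun _ _ => rfl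
  have hmono : ∀ σ, StrictMono fun n => (st σ n).2 := fun σ =>
    strictMono_nat_of_lt_succ fun n => by rw [st2]; exact hm _ _
  have hstep : ∀ σ n, (st σ (n + 1)).1.1 ∈ cyl (st σ n).1 (st σ n).2 := by
    intro σ n
    rw [st1]
    split_ifs
    · exact hv _ _
    · exact fun _ _ _ _ => rfl
  have hcyl : ∀ σ n n', n ≤ n' → (st σ n').1.1 ∈ cyl (st σ n).1 (st σ n).2 := by
    intro σ n n' h
    induction n', h using Nat.le_induction with
    | base => exact fun _ _ _ _ => rfl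
    | succ n' h ih =>
      intro i hi k hk
      have h1 : (st σ n).2 ≤ (st σ n').2 := (hmono σ).monotone h
      rw [hstep σ n' i (by omega) k (by omega), ih i hi k hk]
  let φ : C → X1 := fun σ i k => (st σ (i + k + 1)).1.1 i k
  have hφ : ∀ σ n, φ σ ∈ cyl (st σ n).1 (st σ n).2 := by
    intro σ n i hi k hk
    have h1 : i + k + 1 ≤ (st σ (i + k + 1)).2 := (hmono σ).le_apply
    rcases le_total n (i + k + 1) with h | h
    · exact hcyl σ n _ h i hi k hk
    · exact (hcyl σ _ n h i (by omega) k (by omega)).symm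
  refine ⟨φ, fun σ => ?_, fun σ τ hστ i hi => ?_⟩
  · refine hP.mem_of_tendsto (f := fun n => (st σ n).1.1) (b := atTop) ?_
      (Eventually.of_forall fun n => (st σ n).1.2.1)
    refine tendsto_pi_nhds.2 fun i => tendsto_pi_nhds.2 fun k => tendsto_const_nhds.congr' ?_
    filter_upwards [eventually_gt_atTop (i + k)] with n hn
    have h1 : n ≤ (st σ n).2 := (hmono σ).le_apply
    exact hφ σ n i (by omega) k (by omega)
  · have hex : ∃ n, σ n ≠ τ n := Function.ne_iff.1 hστ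
    set n := Nat.find hex with hn
    have heq : ∀ n' ≤ n, st σ n' = st τ n' := by
      intro n' h
      induction n' with
      | zero => rfl
      | succ n' ih =>
        have h1 := ih (by omega)
        have h2 : σ n' = τ n' := by
          by_contra h3
          exact absurd (Nat.find_min' hex h3) (by omega)
        apply Prod.ext
        · rw [st1, st1, h1, h2]
        · rw [st2, st2, h1]
    have h1 := heq n le_rfl
    obtain ⟨hi', k, hk, hne⟩ := hvu (st σ n).1 (st σ n).2 i hi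
    have a1 := hφ σ (n + 1) i (by rw [st2]; exact hi') k (by rw [st2]; exact hk)
    have a2 := hφ τ (n + 1) i (by rw [st2, ← h1]; exact hi') k (by rw [st2, ← h1]; exact hk)
    rw [st1] at a1 a2
    rw [← h1] at a2
    have h3 : σ n ≠ τ n := Nat.find_spec hex
    intro h
    have h4 := congrFun h k
    rw [a1, a2] at h4
    cases h5 : σ n <;> cases h6 : τ n <;> simp_all

theorem mk_C : Cardinal.mk C = 𝔠 := by simp [C]

theorem exists_avoid {J : Finset ℕ} {P : Set X1} (hP : IsClosed P) (hB : Big J P) {S : Set C}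
    (hS : Cardinal.mk S < 𝔠) : ∃ u ∈ P, ∀ i ∈ J, u i ∉ S := by
  obtain ⟨φ, h1, h2⟩ := exists_many hP hB
  by_contra h
  push Not at h
  choose i hi hiS using fun σ => h (φ σ) (h1 σ)
  have hinj : Function.Injective fun σ : C => ((i σ, ⟨φ σ (i σ), hiS σ⟩) : ℕ × S) := by
    intro σ τ hστ
    by_contra hne
    simp only [Prod.mk.injEq, Subtype.mk.injEq] at hστ
    exact h2 σ τ hne (i σ) (hi σ) (hστ.2.trans (by rw [hστ.1]))
  have := mk_le_of_injective hinj
  rw [mk_C, mk_prod, lift_id, lift_id, mk_nat] at this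
  exact absurd this (not_le.2 (mul_lt_of_lt aleph0_le_continuum aleph0_lt_continuum hS))

theorem exists_rec {T α : Type} [LinearOrder T] [WellFoundedLT T] (R : T → Set α → α → Prop)
    (h : ∀ t (S : Set α), Cardinal.mk S ≤ Cardinal.mk (Iio t) → ∃ a, R t S a) :
    ∃ F : T → α, ∀ t, R t (F '' Iio t) (F t) := by
  choose G hG using h
  let F : T → α := (wellFounded_lt (α := T)).fix fun t f =>
    G t (range fun s : Iio t => f s.1 s.2) mk_range_le
  refine ⟨F, fun t => ?_⟩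
  have h1 : F t = G t (range fun s : Iio t => F s.1) mk_range_le :=
    (wellFounded_lt (α := T)).fix_eq _ t
  have h2 : F '' Iio t = range fun s : Iio t => F s.1 := image_eq_range _ _
  rw [h1, h2]
  exact hG _ _ _

theorem exists_bern : ∃ B : Set C, 𝔠 ≤ Cardinal.mk B ∧ ∀ (J : Finset ℕ) (P : Set X1),
    IsClosed P → Big J P → ∃ u ∈ P, ∀ i ∈ J, u i ∉ B := by
  classical
  let T := (𝔠 : Cardinal.{0}).ord.ToType
  have hT : Cardinal.mk (Finset ℕ × (ℕ → X1)) = Cardinal.mk T := by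
    simp [T]
  obtain ⟨e⟩ := Cardinal.eq.1 hT
  let P : T → Set X1 := fun t => closure (range (e.symm t).2)
  obtain ⟨F, hF⟩ := exists_rec (T := T) (α := X1 × C) (fun t S a =>
    (Big (e.symm t).1 (P t) → a.1 ∈ P t ∧ ∀ i ∈ (e.symm t).1, a.1 i ∉ Prod.snd '' S) ∧
      a.2 ∉ Prod.snd '' S ∧ (∀ i, a.2 ≠ a.1 i) ∧ ∀ p ∈ S, ∀ i, a.2 ≠ p.1 i) (by
    intro t S hS
    have hS' : Cardinal.mk S < 𝔠 := hS.trans_lt (mk_Iio_toType_ord_lt t)
    have hS2 : Cardinal.mk (Prod.snd '' S) < 𝔠 := mk_image_le.trans_lt hS'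
    obtain ⟨u, hu⟩ : ∃ u : X1, Big (e.symm t).1 (P t) →
        u ∈ P t ∧ ∀ i ∈ (e.symm t).1, u i ∉ Prod.snd '' S := by
      by_cases hb : Big (e.symm t).1 (P t)
      · obtain ⟨u, hu⟩ := exists_avoid isClosed_closure hb hS2
        exact ⟨u, fun _ => hu⟩
      · exact ⟨default, fun h => absurd h hb⟩
    have h3 : Cardinal.mk ((Prod.snd '' S ∪ range u) ∪
        range (fun q : S × ℕ => q.1.1.1 q.2) : Set C) < 𝔠 := by
      refine (mk_union_le _ _).trans_lt (add_lt_of_lt aleph0_le_continuum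
        ((mk_union_le _ _).trans_lt (add_lt_of_lt aleph0_le_continuum hS2 ?_)) ?_)
      · exact (le_aleph0_iff_set_countable.2 (countable_range u)).trans_lt aleph0_lt_continuum
      · refine mk_range_le.trans_lt ?_
        rw [mk_prod, lift_id, lift_id, mk_nat]
        exact mul_lt_of_lt aleph0_le_continuum hS' aleph0_lt_continuum
    obtain ⟨b, hb⟩ : ∃ b, b ∉ ((Prod.snd '' S ∪ range u) ∪
        range (fun q : S × ℕ => q.1.1.1 q.2) : Set C) := by
      by_contra hc
      push Not at hc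
      rw [eq_univ_of_forall hc, mk_univ, mk_C] at h3
      exact lt_irrefl _ h3
    exact ⟨(u, b), hu, fun h => hb (Or.inl (Or.inl h)), fun i h => hb (Or.inl (Or.inr ⟨i, h.symm⟩)),
      fun p hp i h => hb (Or.inr ⟨(⟨p, hp⟩, i), h.symm⟩)⟩)
  refine ⟨range fun t => (F t).2, ?_, fun J Q hQ hB => ?_⟩
  · have hinj : Function.Injective fun t => (F t).2 := by
      intro s t hst
      by_contra hne
      rcases lt_or_gt_of_ne hne with h | h
      · exact (hF t).2.1 ⟨F s, ⟨s, h, rfl⟩, hst⟩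
      · exact (hF s).2.1 ⟨F t, ⟨t, h, rfl⟩, hst.symm⟩
    rw [mk_range_eq _ hinj, mk_ord_toType]
  · obtain ⟨u0, hu0, -⟩ := hB ∅ countable_empty
    obtain ⟨D, hDQ, hDc, hD⟩ :=
      (TopologicalSpace.IsSeparable.of_separableSpace Q).exists_countable_dense_subset
    have hDne : D.Nonempty := closure_nonempty_iff.1 ⟨u0, hD hu0⟩
    obtain ⟨f, hf⟩ := hDc.exists_eq_range hDne
    have hPQ : P (e (J, f)) = Q := by
      simp only [P, e.symm_apply_apply, ← hf]
      exact (closure_minimal hDQ hQ).antisymm hD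
    obtain ⟨h1, h2⟩ := (hF (e (J, f))).1 (by rw [hPQ, e.symm_apply_apply]; exact hB)
    rw [hPQ] at h1
    rw [e.symm_apply_apply] at h2
    refine ⟨_, h1, fun i hi => ?_⟩
    rintro ⟨t, ht⟩
    rcases lt_trichotomy t (e (J, f)) with h | h | h
    · exact h2 i hi ⟨F t, ⟨t, h, rfl⟩, ht⟩
    · exact (hF t).2.2.1 i (by rw [h] at ht ⊢; exact ht)
    · exact (hF t).2.2.2 _ ⟨_, h, rfl⟩ i ht

end

end Pool.Agent.H.MP_ca288e_gt
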