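import Mathlib
import Pool.Agent.H.MP_ca288e_gt.A
import Pool.Agent.H.MP_ca288e_gt.B

namespace Pool.Agent.H.MP_ca288e_gt

open Set Filter Topology Cardinal

noncomputable section

abbrev V : Type := C × ℕ × X1

abbrev A : Type := ℕ × ℕ × Finset (ℕ × ℕ)

def val (a : A) : V := (fun k => decide (k < a.1), a.2.1, fun i j => decide ((i, j) ∈ a.2.2))

def d : ℕ → Finset (ℕ × A) := (exists_surjective_nat (Finset (ℕ × A))).choose

theorem d_surj : Function.Surjective d := (exists_surjective_nat (Finset (ℕ × A))).choose_spec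

def bd (k : ℕ) : ℕ := (d k).sup fun p => p.2.1

def B : Set C := exists_bern.choose

theorem B_card : 𝔠 ≤ Cardinal.mk B := exists_bern.choose_spec.1

theorem B_bern (J : Finset ℕ) (P : Set X1) (hP : IsClosed P) (hB : Big J P) :
    ∃ u ∈ P, ∀ i ∈ J, u i ∉ B := exists_bern.choose_spec.2 J P hP hB

theorem exists_b (δ : W) : ∃ b : W → C, InjOn b (Iio δ) ∧ ∀ g, g < δ → b g ∈ B := by
  classical
  obtain ⟨e⟩ : Cardinal.mk (Iio δ) ≤ Cardinal.mk B := (mk_Iio_le δ).trans B_card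
  refine ⟨fun g => if h : g < δ then (e ⟨g, h⟩).1 else default, ?_, ?_⟩
  · intro x hx y hy hxy
    simp only [mem_Iio.1 hx, mem_Iio.1 hy, dite_true] at hxy
    exact congrArg Subtype.val (e.injective (Subtype.ext hxy))
  · intro g hg
    simp only [hg, dite_true]
    exact (e _).2

def b (δ : W) : W → C := (exists_b δ).choose

theorem b_inj (δ : W) : InjOn (b δ) (Iio δ) := (exists_b δ).choose_spec.1

theorem b_mem {δ g : W} (h : g < δ) : b δ g ∈ B := (exists_b δ).choose_spec.2 g h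

def Cl (δ : W) (k : ℕ) : Set (W → V) :=
  {z | (z δ).1 = (fun _ => true) ∧ (z δ).2.1 = k ∧ ∀ g, g ≠ δ → z g = val (0, 0, ∅) ∨
    (g < δ ∧ ∃ p ∈ d k, (z δ).2.2 p.1 = b δ g ∧ z g = val p.2)}

def C3 : Set (W → V) := {z | ∀ g g' N, g < g' → (z g).1 N = true → (z g').1 N = true →
  N < rho g g' ∨ N < bd (z g').2.1}

def Gd (δ : W) (p : ℕ × A) : Set (W → V) :=
  {z | ∀ g, g < δ → (z δ).2.2 p.1 = b δ g → z g = val p.2}

def Good (δ : W) (k : ℕ) : Set (W → V) := {z | ∀ p ∈ d k, z ∈ Gd δ p}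

def L (δ : W) (k : ℕ) : Set (W → V) := (Cl δ k ∩ Good δ k) ∩ C3

theorem closed_Cl (δ : W) (k : ℕ) : IsClosed (Cl δ k) := by
  refine IsClosed.and (isClosed_eq (by fun_prop) continuous_const)
    (IsClosed.and (isClosed_eq (by fun_prop) continuous_const) ?_)
  simp only [ofPred_forall]
  refine isClosed_iInter fun g => isClosed_iInter fun hg => ?_
  refine IsClosed.union (s₁ := {z : W → V | z g = val (0, 0, ∅)})
    (isClosed_eq (by fun_prop) continuous_const) ?_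
  by_cases h : g < δ
  · have : {z : W → V | g < δ ∧ ∃ p ∈ d k, (z δ).2.2 p.1 = b δ g ∧ z g = val p.2} =
        ⋃ p ∈ d k, {z : W → V | (z δ).2.2 p.1 = b δ g ∧ z g = val p.2} := by
      ext z; simp only [h, true_and, mem_ofPred_eq, mem_iUnion, exists_prop]
    change IsClosed {z : W → V | g < δ ∧ ∃ p ∈ d k, (z δ).2.2 p.1 = b δ g ∧ z g = val p.2}
    rw [this]
    exact isClosed_biUnion_finset fun p _ => IsClosed.and
      (isClosed_eq (by fun_prop) continuous_const) (isClosed_eq (by fun_prop) continuous_const)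
  · change IsClosed {z : W → V | g < δ ∧ ∃ p ∈ d k, (z δ).2.2 p.1 = b δ g ∧ z g = val p.2}
    simp [h]

theorem compact_Cl (δ : W) (k : ℕ) : IsCompact (Cl δ k) := by
  have hK : IsCompact ((univ : Set C) ×ˢ (Iic (k + (d k).sup fun p => p.2.2.1) ×ˢ
      (univ : Set X1))) :=
    isCompact_univ.prod ((finite_Iic _).isCompact.prod isCompact_univ)
  refine (isCompact_univ_pi fun _ : W => hK).of_isClosed_subset (closed_Cl δ k) ?_
  rintro z ⟨-, h2, h3⟩ g -
  refine ⟨trivial, ?_, trivial⟩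
  simp only [mem_Iic]
  by_cases hg : g = δ
  · rw [hg, h2]; omega
  · rcases h3 g hg with h | ⟨-, p, hp, -, h⟩
    · rw [h]; exact Nat.zero_le _
    · rw [h]
      have : p.2.2.1 ≤ (d k).sup fun p => p.2.2.1 :=
        Finset.le_sup (f := fun p : ℕ × A => p.2.2.1) hp
      simp only [val]; omega

theorem closed_C3 : IsClosed C3 := by
  simp only [C3, ofPred_forall]
  refine isClosed_iInter fun g => isClosed_iInter fun g' => isClosed_iInter fun N => ?_
  have : IsClosed ((fun z : W → V => ((z g).1 N, (z g').1 N, (z g').2.1)) ⁻¹'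
      {q : Bool × Bool × ℕ | g < g' → q.1 = true → q.2.1 = true → N < rho g g' ∨ N < bd q.2.2}) :=
    (isClosed_discrete _).preimage (by fun_prop)
  convert this using 1
  ext z; simp

theorem lind_supp {F : Set W} (hF : F.Countable) {S : Set (W → V)} (v : V)
    (h : ∀ z ∈ S, ∀ g ∉ F, z g = v) : IsLindelof S := by
  classical
  haveI := hF.to_subtype
  let ext : (F → V) → (W → V) := fun y g => if h : g ∈ F then y ⟨g, h⟩ else v
  have hc : Continuous ext := continuous_pi fun g => by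
    by_cases hg : g ∈ F
    · simp only [ext, hg, dite_true]; exact continuous_apply _
    · simp only [ext, hg, dite_false]; exact continuous_const
  have : S = ext '' (ext ⁻¹' S) := by
    refine (image_preimage_eq_of_subset fun z hz => ⟨fun g => z g, ?_⟩).symm
    funext g
    by_cases hg : g ∈ F
    · simp only [ext, hg, dite_true]
    · simp only [ext, hg, dite_false]; exact (h z hz g hg).symm
  rw [this]
  exact (HereditarilyLindelofSpace.isLindelof _).image hc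

theorem lind_of {Y : Type} [TopologicalSpace Y] {S T : Set Y} (hS : IsLindelof S) (hST : S ⊆ T)
    (h : ∀ O, IsOpen O → S ⊆ O → ∃ M, IsLindelof M ∧ M ⊆ T ∧ T \ O ⊆ M) : IsLindelof T := by
  refine isLindelof_of_countable_subcover fun {ι} U hU hT => ?_
  obtain ⟨r, hr, hSr⟩ := hS.elim_countable_subcover U hU (hST.trans hT)
  obtain ⟨M, hM, hMT, hTM⟩ := h (⋃ i ∈ r, U i) (isOpen_biUnion fun i _ => hU i) hSr
  obtain ⟨r', hr', hMr⟩ := hM.elim_countable_subcover U hU (hMT.trans hT)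
  refine ⟨r ∪ r', hr.union hr', fun y hy => ?_⟩
  rw [biUnion_union]
  by_cases hy' : y ∈ ⋃ i ∈ r, U i
  · exact Or.inl hy'
  · exact Or.inr (hMr (hTM ⟨hy, hy'⟩))

theorem lind_aux (δ : W) (k : ℕ) (J : Finset ℕ) : ∀ Q : Set (W → V), IsClosed Q → Q ⊆ Cl δ k →
    (∀ p ∈ d k, p.1 ∉ J → ∃ s, ∀ z ∈ Q, (z δ).2.2 p.1 = s ∧ z ∈ Gd δ p) →
    IsLindelof (Q ∩ Good δ k) := by
  classical
  induction J using Finset.strongInduction with
  | H J ih =>
    intro Q hQ hQC hJ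
    choose! s hs using hJ
    have h0 : IsLindelof {z ∈ Q | ∀ i ∈ J, (z δ).2.2 i ∉ B} := by
      refine lind_supp (F := insert δ (⋃ p ∈ d k, {g | g < δ ∧ b δ g = s p})) ?_ (val (0, 0, ∅)) ?_
      · refine Countable.insert _ (Countable.biUnion (d k).countable_toSet fun p _ => ?_)
        refine Set.Subsingleton.countable ?_
        intro x hx y hy
        exact b_inj δ hx.1 hy.1 (hx.2.trans hy.2.symm)
      · rintro z ⟨hz, hz'⟩ g hg
        rcases (hQC hz).2.2 g (fun h => hg (Or.inl h)) with h | ⟨hgδ, p, hp, h1, -⟩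
        · exact h
        · have hpJ : p.1 ∉ J := fun h => hz' _ h (h1 ▸ b_mem hgδ)
          refine absurd (Or.inr (mem_biUnion (x := p) hp ?_)) hg
          exact ⟨hgδ, h1.symm.trans (hs p hp hpJ z hz).1⟩
    refine lind_of h0 ?_ fun O hO hO' => ?_
    · rintro z ⟨hz, hz'⟩
      refine ⟨hz, fun p hp => ?_⟩
      by_cases hpJ : p.1 ∈ J
      · intro g hg h1
        exact absurd (h1 ▸ b_mem hg) (hz' _ hpJ)
      · exact (hs p hp hpJ z hz).2
    · have hK : IsCompact (Q \ O) :=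
        (compact_Cl δ k).of_isClosed_subset (hQ.sdiff hO) (sdiff_subset.trans hQC)
      have hP : IsClosed ((fun z : W → V => (z δ).2.2) '' (Q \ O)) :=
        (hK.image (by fun_prop)).isClosed
      have hnb : ¬ Big J ((fun z : W → V => (z δ).2.2) '' (Q \ O)) := by
        intro hb
        obtain ⟨_, ⟨z, hz, rfl⟩, hu⟩ := B_bern J _ hP hb
        exact hz.2 (hO' ⟨hz.1, hu⟩)
      unfold Big at hnb
      push Not at hnb
      obtain ⟨S, hS, hS'⟩ := hnb
      let Q' : ℕ × C → Set (W → V) := fun q => Q ∩ ({z | (z δ).2.2 q.1 = q.2} ∩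
        {z | ∀ p ∈ d k, p.1 = q.1 → ∀ g, g < δ → q.2 = b δ g → z g = val p.2})
      have hQ' : ∀ q, IsClosed (Q' q) := by
        intro q
        refine hQ.inter ((isClosed_eq (by fun_prop) continuous_const).inter ?_)
        simp only [ofPred_forall]
        exact isClosed_iInter fun p => isClosed_iInter fun _ => isClosed_iInter fun _ =>
          isClosed_iInter fun g => isClosed_iInter fun _ => isClosed_iInter fun _ =>
          isClosed_eq (by fun_prop) continuous_const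
      refine ⟨⋃ q ∈ (J : Set ℕ) ×ˢ S, Q' q ∩ Good δ k, ?_, ?_, ?_⟩
      · refine (J.countable_toSet.prod hS).isLindelof_biUnion fun q hq => ?_
        refine ih (J.erase q.1) (Finset.erase_ssubset hq.1) _ (hQ' q)
          (inter_subset_left.trans hQC) fun p hp hpJ => ?_
        by_cases hpq : p.1 = q.1
        · refine ⟨q.2, fun z hz => ⟨hpq ▸ hz.2.1, fun g hg h1 => ?_⟩⟩
          refine hz.2.2 p hp hpq g hg ?_
          rw [← h1, hpq]; exact hz.2.1.symm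
        · have : p.1 ∉ J := fun h => hpJ (Finset.mem_erase.2 ⟨hpq, h⟩)
          exact ⟨s p, fun z hz => hs p hp this z hz.1⟩
      · exact iUnion₂_subset fun q _ => inter_subset_inter_left _ inter_subset_left
      · rintro z ⟨⟨hz, hzG⟩, hzO⟩
        obtain ⟨i, hi, hiS⟩ := hS' _ ⟨z, ⟨hz, hzO⟩, rfl⟩
        refine mem_biUnion (x := (i, (z δ).2.2 i)) ⟨hi, hiS⟩ ⟨⟨hz, rfl, ?_⟩, hzG⟩
        rintro p hp rfl g hg h1
        exact hzG p hp g hg h1

theorem lind_L (δ : W) (k : ℕ) : IsLindelof (L δ k) := by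
  classical
  refine IsLindelof.inter_right ?_ closed_C3
  refine lind_aux δ k ((d k).image Prod.fst) _ (closed_Cl δ k) subset_rfl fun p hp h => ?_
  exact absurd (Finset.mem_image_of_mem _ hp) h

def Compat (Γ : Finset W) (w : W → A) : Prop :=
  ∀ g ∈ Γ, ∀ g' ∈ Γ, ∀ N, g < g' → N < (w g).1 → N < (w g').1 →
    N < rho g g' ∨ N < bd (w g').2.1

theorem realize (δ : W) (Γ : Finset W) (w : W → A) (hΓ : ∀ g ∈ Γ, g < δ) (hc : Compat Γ w) :
    ∃ k, ∃ z ∈ L δ k, ∀ g ∈ Γ, z g = val (w g) := by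
  classical
  obtain ⟨idx, hidx⟩ := Set.countable_iff_exists_injOn.1 Γ.countable_toSet
  obtain ⟨k, hk⟩ := d_surj (Γ.image fun g => (idx g, w g))
  haveI : Nonempty W := ⟨δ⟩
  let x : X1 := fun i => b δ (Function.invFunOn idx Γ i)
  have hx : ∀ g ∈ Γ, x (idx g) = b δ g := fun g hg => by
    simp only [x]; rw [hidx.leftInvOn_invFunOn hg]
  let z : W → V := fun g => if g = δ then (fun _ => true, k, x) else
    if g ∈ Γ then val (w g) else val (0, 0, ∅)
  have zδ : z δ = (fun _ => true, k, x) := if_pos rfl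
  have zΓ : ∀ g ∈ Γ, z g = val (w g) := fun g hg => by
    simp only [z, (hΓ g hg).ne, hg, if_true, if_false]
  have z0 : ∀ g, g ≠ δ → g ∉ Γ → z g = val (0, 0, ∅) := fun g h1 h2 => by
    simp only [z, h1, h2, if_false]
  have act : ∀ g N, g ≠ δ → (z g).1 N = true → g ∈ Γ ∧ N < (w g).1 := by
    intro g N h1 h2
    by_cases h : g ∈ Γ
    · rw [zΓ g h] at h2
      exact ⟨h, by simpa [val] using h2⟩
    · rw [z0 g h1 h] at h2
      simp [val] at h2
  refine ⟨k, z, ⟨⟨⟨by rw [zδ], by rw [zδ], fun g hg => ?_⟩, fun p hp g hg h1 => ?_⟩, ?_⟩, zΓ⟩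
  · by_cases h : g ∈ Γ
    · refine Or.inr ⟨hΓ g h, (idx g, w g), ?_, ?_, zΓ g h⟩
      · rw [hk]; exact Finset.mem_image_of_mem _ h
      · rw [zδ]; exact hx g h
    · exact Or.inl (z0 g hg h)
  · rw [hk] at hp
    obtain ⟨g0, hg0, rfl⟩ := Finset.mem_image.1 hp
    rw [zδ] at h1
    have h2 : g0 = g := b_inj δ (hΓ g0 hg0) hg ((hx g0 hg0).symm.trans h1)
    rw [← h2]; exact zΓ g0 hg0
  · intro g g' N hgg h1 h2
    by_cases hg' : g' = δ
    · obtain ⟨h3, h4⟩ := act g N (hg' ▸ hgg.ne) h1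
      right
      rw [hg', zδ]
      refine h4.trans_le ?_
      have h5 : (idx g, w g) ∈ d k := by rw [hk]; exact Finset.mem_image_of_mem _ h3
      exact Finset.le_sup (f := fun p : ℕ × A => p.2.1) h5
    · obtain ⟨h3, h4⟩ := act g' N hg' h2
      obtain ⟨h5, h6⟩ := act g N (hgg.trans (hΓ g' h3)).ne h1
      rw [zΓ g' h3]
      exact hc g h5 g' h3 N hgg h6 h4

theorem approx_val {δ : W} {k : ℕ} {z : W → V} (hz : z ∈ Cl δ k) (g : W) {u : Set V}
    (hu : IsOpen u) (hg : z g ∈ u) :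
    ∃ a, val a ∈ u ∧ (∀ N, N < a.1 → (z g).1 N = true) ∧ a.2.1 = (z g).2.1 := by
  classical
  by_cases h : g = δ
  · subst h
    let a : ℕ → A := fun t => (t, (z g).2.1,
      (Finset.range t ×ˢ Finset.range t).filter fun q => (z g).2.2 q.1 q.2 = true)
    have ht : Tendsto (fun t => val (a t)) atTop (𝓝 (z g)) := by
      refine Tendsto.prodMk_nhds ?_ (Tendsto.prodMk_nhds tendsto_const_nhds ?_)
      · refine tendsto_pi_nhds.2 fun N => tendsto_const_nhds.congr' ?_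
        filter_upwards [eventually_gt_atTop N] with t ht
        rw [hz.1]; simp [a, ht]
      · refine tendsto_pi_nhds.2 fun i => tendsto_pi_nhds.2 fun j =>
          tendsto_const_nhds.congr' ?_
        filter_upwards [eventually_gt_atTop i, eventually_gt_atTop j] with t hi hj
        cases h : (z g).2.2 i j <;> simp [a, h, hi, hj]
    obtain ⟨t, ht'⟩ := (ht.eventually (hu.mem_nhds hg)).exists
    exact ⟨a t, ht', fun N _ => congrFun hz.1 N, rfl⟩
  · obtain ⟨a, ha⟩ : ∃ a, z g = val a := by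
      rcases hz.2.2 g h with h | ⟨-, p, -, -, h⟩
      · exact ⟨_, h⟩
      · exact ⟨_, h⟩
    refine ⟨a, ha ▸ hg, fun N hN => ?_, by rw [ha]; rfl⟩
    rw [ha]; simpa [val] using hN

theorem approx {δ : W} {k : ℕ} {z : W → V} (hz : z ∈ L δ k) {O : Set (W → V)} (hO : IsOpen O)
    (hzO : z ∈ O) : ∃ Γ w, Compat Γ w ∧ ∀ y : W → V, (∀ g ∈ Γ, y g = val (w g)) → y ∈ O := by
  obtain ⟨Γ, u, hu, hΓ⟩ := isOpen_pi_iff.1 hO z hzO
  choose! w h1 h2 h3 using fun g (hg : g ∈ Γ) => approx_val hz.1.1 g (hu g hg).1 (hu g hg).2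
  refine ⟨Γ, w, fun g hg g' hg' N hgg a1 a2 => ?_, fun y hy => hΓ fun g hg => ?_⟩
  · rw [h3 g' hg']
    exact hz.2 g g' N hgg (h2 g hg N a1) (h2 g' hg' N a2)
  · rw [hy g hg]; exact h1 g hg

def X : Set (W → V) := {z | ∃ δ k, z ∈ L δ k}

theorem conds (𝒰 : Set (Set X)) (h : ∀ U ∈ 𝒰, IsOpen U ∧ U.Nonempty) :
    ∃ (Γ : Set X → Finset W) (w : Set X → W → A), ∀ U ∈ 𝒰, Compat (Γ U) (w U) ∧
      ∀ y : X, (∀ g ∈ Γ U, y.1 g = val (w U g)) → y ∈ U := by
  have : ∀ U ∈ 𝒰, ∃ (Γ : Finset W) (w : W → A), Compat Γ w ∧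
      ∀ y : X, (∀ g ∈ Γ, y.1 g = val (w g)) → y ∈ U := by
    intro U hU
    obtain ⟨⟨O, hO, rfl⟩, ⟨z, δ, k, hz⟩, hzU⟩ := h U hU
    obtain ⟨Γ, w, h1, h2⟩ := approx hz hO hzU
    exact ⟨Γ, w, h1, fun y hy => h2 y hy⟩
  choose! Γ w hw using this
  exact ⟨Γ, w, hw⟩

theorem cell_small (𝒰 : Set (Set X)) (h : ∀ U ∈ 𝒰, IsOpen U ∧ U.Nonempty)
    (hd : 𝒰.PairwiseDisjoint id) : Cardinal.mk 𝒰 ≤ 𝔠 := by
  classical
  by_contra hc
  obtain ⟨Γ, w, hw⟩ := conds 𝒰 h
  obtain ⟨U, hU, U', hU', hne, h1, h2⟩ := delta 𝒰 (not_le.1 hc) Γ w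
    fun U => (Γ U).sup fun g => (w U g).1
  let w' : W → A := fun g => if g ∈ Γ U then w U g else w U' g
  have e1 : ∀ g ∈ Γ U, w' g = w U g := fun g hg => if_pos hg
  have e2 : ∀ g ∈ Γ U', w' g = w U' g := fun g hg => by
    by_cases h3 : g ∈ Γ U
    · rw [e1 g h3, h1 g h3 hg]
    · exact if_neg h3
  obtain ⟨δ, hδ⟩ := exists_bound (small_countable (Γ U ∪ Γ U').countable_toSet)
  obtain ⟨k, z, hz, hz'⟩ := realize δ (Γ U ∪ Γ U') w' hδ (by
    intro g hg g' hg' N hgg a1 a2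
    by_cases b1 : g ∈ Γ U ∧ g' ∈ Γ U
    · rw [e1 _ b1.1] at a1
      rw [e1 _ b1.2] at a2 ⊢
      exact (hw U hU).1 g b1.1 g' b1.2 N hgg a1 a2
    by_cases b2 : g ∈ Γ U' ∧ g' ∈ Γ U'
    · rw [e2 _ b2.1] at a1
      rw [e2 _ b2.2] at a2 ⊢
      exact (hw U' hU').1 g b2.1 g' b2.2 N hgg a1 a2
    rw [Finset.mem_union] at hg hg'
    by_cases b3 : g ∈ Γ U
    · have b4 : g' ∉ Γ U := fun h => b1 ⟨b3, h⟩
      have b5 : g' ∈ Γ U' := hg'.resolve_left b4
      have b6 := (h2 g b3 (fun h => b2 ⟨h, b5⟩) g' b5 b4).2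
      rw [e1 _ b3] at a1
      exact Or.inl (a1.trans_le ((Finset.le_sup (f := fun g => (w U g).1) b3).trans b6.le))
    · have b4 : g ∈ Γ U' := hg.resolve_left b3
      have b5 : g' ∉ Γ U' := fun h => b2 ⟨b4, h⟩
      exact absurd (h2 g' (hg'.resolve_right b5) b5 g b4 b3).1 (not_lt.2 hgg.le))
  have m1 := (hw U hU).2 ⟨z, δ, k, hz⟩ fun g hg => by
    rw [← e1 g hg]; exact hz' g (Finset.mem_union_left _ hg)
  have m2 := (hw U' hU').2 ⟨z, δ, k, hz⟩ fun g hg => by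
    rw [← e2 g hg]; exact hz' g (Finset.mem_union_right _ hg)
  exact disjoint_left.1 (hd hU hU' hne) m1 m2

theorem cell_lind (𝒰 : Set (Set X)) (h : ∀ U ∈ 𝒰, IsOpen U ∧ U.Nonempty)
    (hd : 𝒰.PairwiseDisjoint id) :
    ∃ M : Set X, IsLindelof M ∧ ∀ U ∈ 𝒰, (M ∩ U).Nonempty := by
  obtain ⟨Γ, w, hw⟩ := conds 𝒰 h
  obtain ⟨δ, hδ⟩ := exists_bound (small_biUnion (f := fun U => (Γ U : Set W))
    (cell_small 𝒰 h hd) fun U _ => small_countable (Γ U).countable_toSet)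
  refine ⟨Subtype.val ⁻¹' (⋃ k, L δ k), ?_, fun U hU => ?_⟩
  · rw [Subtype.isLindelof_iff, image_preimage_eq_of_subset]
    · exact isLindelof_iUnion fun k => lind_L δ k
    · rw [Subtype.range_coe]
      exact iUnion_subset fun k z hz => ⟨δ, k, hz⟩
  · obtain ⟨k, z, hz, hz'⟩ := realize δ (Γ U) (w U) (fun g hg => hδ g (mem_biUnion hU hg))
      (hw U hU).1
    exact ⟨⟨z, δ, k, hz⟩, mem_iUnion.2 ⟨k, hz⟩, (hw U hU).2 _ hz'⟩

theorem bit_eq {δ g : W} {k n : ℕ} {z : W → V} (hz : z ∈ Cl δ k) (hn : bd k ≤ n)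
    (h : (z g).1 n = true) : g = δ := by
  by_contra hg
  rcases hz.2.2 g hg with h1 | ⟨-, p, hp, -, h1⟩
  · rw [h1] at h; simp [val] at h
  · rw [h1] at h
    have h2 : p.2.1 ≤ bd k := Finset.le_sup (f := fun p : ℕ × A => p.2.1) hp
    simp only [val, decide_eq_true_eq] at h
    omega

theorem det {δ : W} {k : ℕ} {z y : W → V} (hz : z ∈ L δ k) (hy : y ∈ L δ k)
    (h : (z δ).2.2 = (y δ).2.2) : z = y := by
  funext g
  by_cases hg : g = δ
  · rw [hg]
    exact Prod.ext (hz.1.1.1.trans hy.1.1.1.symm)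
      (Prod.ext (hz.1.1.2.1.trans hy.1.1.2.1.symm) h)
  rcases hz.1.1.2.2 g hg with h1 | ⟨h0, p, hp, h2, h1⟩
  · rcases hy.1.1.2.2 g hg with h3 | ⟨h0, p, hp, h2, h3⟩
    · rw [h1, h3]
    · rw [h3]; exact hz.1.2 p hp g h0 (h ▸ h2)
  · rw [h1]; exact (hy.1.2 p hp g h0 (h ▸ h2)).symm

def G (n : ℕ) (q : W × ℕ × X1) : Set X :=
  {z | (z.1 q.1).1 n = true ∧ (z.1 q.1).2.1 = q.2.1 ∧
    ∀ i < n, ∀ j < n, (z.1 q.1).2.2 i j = q.2.2 i j}

theorem open_G (n : ℕ) (q : W × ℕ × X1) : IsOpen (G n q) := by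
  have hc : Continuous fun z : X => z.1 q.1 := (continuous_apply _).comp continuous_subtype_val
  refine IsOpen.and ((isOpen_discrete {true}).preimage
    (f := fun z : X => (z.1 q.1).1 n) ((continuous_apply _).comp hc.fst))
    (IsOpen.and ((isOpen_discrete {q.2.1}).preimage
    (f := fun z : X => (z.1 q.1).2.1) hc.snd.fst) ?_)
  simp only [ofPred_forall]
  refine (finite_lt_nat n).isOpen_biInter fun i _ => (finite_lt_nat n).isOpen_biInter fun j _ => ?_
  exact (isOpen_discrete {q.2.2 i j}).preimage (f := fun z : X => (z.1 q.1).2.2 i j)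
    ((continuous_apply _).comp ((continuous_apply _).comp hc.snd.snd))

theorem rank2 : ∃ 𝒰 : ℕ → Set (Set X),
    (∀ n, ∀ V ∈ 𝒰 n, IsOpen V) ∧ (∀ n, ⋃₀ 𝒰 n = Set.univ) ∧
    ∀ x y : X, x ≠ y → ∃ n, ¬ ∃ V ∈ 𝒰 n, ∃ W ∈ 𝒰 n, x ∈ V ∧ (V ∩ W).Nonempty ∧ y ∈ W := by
  refine ⟨fun n => range (G n), ?_, fun n => ?_, ?_⟩
  · rintro n _ ⟨q, rfl⟩
    exact open_G n q
  · refine eq_univ_of_forall ?_
    rintro ⟨z, δ, k, hz⟩
    exact ⟨_, ⟨(δ, k, (z δ).2.2), rfl⟩, congrFun hz.1.1.1 n, hz.1.1.2.1, fun _ _ _ _ => rfl⟩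
  · rintro ⟨z, δ, k, hz⟩ ⟨y, δ', k', hy⟩ hne
    obtain ⟨m, hm⟩ : ∃ m, δ = δ' → k = k' → ∃ i < m, ∃ j < m,
        (z δ).2.2 i j ≠ (y δ').2.2 i j := by
      by_cases h : δ = δ' ∧ k = k'
      · obtain ⟨rfl, rfl⟩ := h
        have h1 : (z δ).2.2 ≠ (y δ).2.2 := fun h => hne (Subtype.ext (det hz hy h))
        obtain ⟨i, hi⟩ := Function.ne_iff.1 h1
        obtain ⟨j, hj⟩ := Function.ne_iff.1 hi
        exact ⟨i + j + 1, fun _ _ => ⟨i, by omega, j, by omega, hj⟩⟩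
      · exact ⟨0, fun h1 h2 => absurd ⟨h1, h2⟩ h⟩
    refine ⟨m + bd k + bd k' + rho δ δ' + rho δ' δ, ?_⟩
    rintro ⟨_, ⟨⟨g, l, x⟩, rfl⟩, _, ⟨⟨g', l', x'⟩, rfl⟩, h1, ⟨⟨u, δ2, k2, hu⟩, h2, h3⟩, h4⟩
    simp only [G, mem_ofPred_eq] at h1 h2 h3 h4
    obtain rfl : g = δ := bit_eq hz.1.1 (by omega) h1.1
    obtain rfl : g' = δ' := bit_eq hy.1.1 (by omega) h4.1
    have e1 : l = k := h1.2.1.symm.trans hz.1.1.2.1
    have e2 : l' = k' := h4.2.1.symm.trans hy.1.1.2.1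
    rcases lt_trichotomy g g' with h | h | h
    · have := hu.2 g g' _ h h2.1 h3.1
      rw [h3.2.1, e2] at this
      omega
    · subst h
      obtain ⟨i, hi, j, hj, hij⟩ := hm rfl (by rw [← e1, ← e2, ← h2.2.1, ← h3.2.1])
      apply hij
      rw [h1.2.2 i (by omega) j (by omega), h4.2.2 i (by omega) j (by omega),
        ← h2.2.2 i (by omega) j (by omega), ← h3.2.2 i (by omega) j (by omega)]
    · have := hu.2 g' g _ h h3.1 h2.1
      rw [h2.2.1, e1] at this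
      omega

theorem big_X : 𝔠 < Cardinal.mk X := by
  obtain ⟨k0, hk0⟩ := d_surj ∅
  have h : ∀ δ : W, ∃ z : X, ∃ k, z.1 ∈ L δ k := fun δ => by
    obtain ⟨k, z, hz, -⟩ := realize δ ∅ (fun _ => (0, 0, ∅)) (by simp) (by simp [Compat])
    exact ⟨⟨z, δ, k, hz⟩, k, hz⟩
  choose z k hz using h
  refine lt_mk_W.trans_le (mk_le_of_injective (f := z) fun δ δ' h => ?_)
  refine bit_eq (hz δ').1.1 le_rfl ?_
  rw [← h]
  exact congrFun (hz δ).1.1.1 _

end

end Pool.Agent.H.MP_ca288e_gt
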